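import Pool.Agent.Run7.h469.Tm
import Pool.Agent.Results.MP_33f996_nt.EveryModulusSevenTenths

/-!
# Goldbach partitions with a prime in `(√(2 n), n)`: trajectories of the `3 x + 1` map

Let `T(x) = x / 2` for even and `T(x) = (q x + c) / 2` for odd `x` (`q`, `c` odd and coprime; `q = 3`, `c = 1` is the map of
Collatz). For almost all starting values `m`, ALL the first `κ log m` members `n = T^k(m)` of the trajectory of `m` and
their multiples `n = u T^k(m)`, `u ≤ (log m)^U`, satisfy the assertion of the problem, and the number of the primes `p`
required there is at least `1 / 21` of the expected number, if `κ < 1 / (log 2 + 3 (log q) / 14)`.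
The exceptional set has at most `N / (log N)^A` elements up to `N`, for every `A`. For the map of Collatz one can take `κ = 1.07`. The trajectory of a
typical `m` under the map of Collatz reaches `1` after about `6.95 log m` steps, so this is about the first seventh of the
whole trajectory; with `u = 2` the result contains all the members `3 x + 1` which are left out by `T`.

Definitions used: from `Run7/h469/Tm`: `T q c`, `exceptionalStarts q c P κ U N` (the `m ≤ N` for which `P (u * T^k(m))` is
false for some `k ≤ κ log N`, `1 ≤ u ≤ (log N)^U`), `AlmostAll`; from the starting file `EveryModulusSevenTenths.Holds n`: there is a prime `p` with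
`√(2 n) < p < n` for which `2 n - p` is also a prime, and the number of these primes is at least `1 / 21` of the expected
number `sing (2 n) n / (log (2 n))²` (`sing` is the singular series).

Proof. On a residue class `r` modulo `2^k` the map `T^k` is affine, `T^k(2^k v + r) = q^a v + T^k(r)`, where `a` is the number
of the odd members among the first `k` members, and `T^k(r)` is prime to `q` if `a > 0`. So the `k`-th members of the
trajectories that start in this class run through a residue class of the large modulus `q^a` which is prime to the modulus.
The theorem of the starting files on all residue classes of all large moduli can be applied if `a` is not much larger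
than `k / 2`; the other classes are few, by the identity `∑_r z^(a(r)) = (1 + z)^k`.
-/

set_option autoImplicit false

namespace Pool.Agent.Results.MP_33f996_nt.CollatzTrajectories

open Finset Filter Topology
open Run7.h469.CT (Few)
open Run7.h469.Tm

/-- The assertion of the problem for `n`: there is a prime `p` with `√(2 n) < p < n` for which `2 n - p` is also prime. -/
def Assertion (n : ℕ) : Prop := ∃ p : ℕ, p.Prime ∧ (2 * n - p).Prime ∧ √(2 * (n : ℝ)) < p ∧ p < n

theorem assertion_of {n : ℕ} (h : EveryModulusSevenTenths.Holds n) : Assertion n := h.1

theorem few_lower : Few (7 / 10) (fun n => EveryModulusSevenTenths.Holds n) :=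
  fun ρ hρ A T => EveryModulusSevenTenths.result ρ hρ A T

/-- almost all trajectories of the map of Collatz -/
theorem collatz (U : ℕ) : AlmostAll (fun m => ∀ k u : ℕ, (k : ℝ) ≤ 107 / 100 * Real.log m → 1 ≤ u →
    (u : ℝ) ≤ Real.log m ^ U → Assertion (u * (T 3 1)^[k] m)) := by
  refine AlmostAll.mono ?_ (collatz_seven_tenths _ (few_lower) U)
  intro m h k u h1 h2 h3
  exact assertion_of (h k u h1 h2 h3)

/-- **Goldbach partitions with a prime in `(√(2 n), n)`: trajectories.** Let `q`, `c` be odd and coprime.
(1) If `κ (log 2 + (3 / 14) log q) < 1`, then for all large `N` and all `m ≤ N` with at most `N / (log N)^A` exceptions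
ALL the integers `n = u * T^k(m)`, `k ≤ κ log N`, `1 ≤ u ≤ (log N)^U`, satisfy `EveryModulusSevenTenths.Holds n`.
(2) In particular for almost all `m` all the integers `n = u * T^k(m)`, `k ≤ 1.07 log m`, `1 ≤ u ≤ (log m)^U`, where
`T(x) = x / 2` or `(3 x + 1) / 2`, satisfy the assertion of the problem: there is a prime `p`,
`√(2 n) < p < n`, such that `2 n - p` is a prime. -/
theorem result :
    (∀ q c : ℕ, Odd q → Odd c → Nat.Coprime c q → ∀ κ : ℝ, κ * (Real.log 2 + 3 / 14 * Real.log q) < 1 →
      ∀ A U : ℕ, ∃ N₀ : ℕ, ∀ N : ℕ, N₀ ≤ N →
        ((exceptionalStarts q c (fun n => EveryModulusSevenTenths.Holds n) κ U N).card : ℝ) ≤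
          N / Real.log N ^ A) ∧
    ∀ U : ℕ, AlmostAll (fun m => ∀ k u : ℕ, (k : ℝ) ≤ 107 / 100 * Real.log m → 1 ≤ u → (u : ℝ) ≤ Real.log m ^ U →
      Assertion (u * (T 3 1)^[k] m)) :=
  ⟨fun q c hq hc hcq κ hκ A U => starts_seven_tenths q c hq hc hcq κ hκ _ (few_lower) A U,
    collatz⟩

end Pool.Agent.Results.MP_33f996_nt.CollatzTrajectories
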