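import Pool.Agent.Run7.h469.Tm
import Pool.Agent.Results.MP_33f996_nt.EveryModulusSevenTenths

/-!
# Goldbach partitions with a prime in `(√(2 n), n)`: values of linear forms with large coefficients, linear recurrences

Let `d ≥ 1`. For EVERY linear form `c · v + e` in `d` variables whose integer coefficients `c_i` have at most `(log X)^U` as
their greatest common divisor and are at most `X^(7/3 - η)`, and for all vectors `v` of `[1, X]^d` with at most
`X^d / (log X)^A` exceptions, ALL the positive values `n` of the form satisfy the assertion of the problem, and the
number of the primes `p` required there is at least `1 / 21` of the expected number.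
For `d = 2` the `X^2` values of such a form are spread over an interval of length `X^(3 - η)` and more: they are
two-dimensional generalised progressions of density `N^(-1/3)`. The same holds for all members of a family of `(log X)^U`
forms at once, for instance for ALL the entries of `M^k v` if `M` is an integer matrix of determinant `± 1` and the entries
of `M^k` are at most `X^(7/3 - η)`.

In particular, let `s`, `t` be coprime positive integers (`s = t = 1`: generalised Fibonacci sequences). For all pairs
`a, b ≤ X` with at most `X^2 / (log X)^A` exceptions ALL the members `x_k ≤ X^(10/3 - η)` of the sequence `x_0 = a`,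
`x_1 = b`, `x_(k + 2) = s x_(k + 1) + t x_k`, all their multiples by `u ≤ (log X)^U` and all the integers within `(log X)^U`
of these have the property (if they are even, for the problems on even integers).

Definitions used: from `Run7/h469/Tm`: `Admissible` (the conditions on a form), `exceptionalVectors`, `seq`,
`exceptionalPairs`; from the starting file `EveryModulusSevenTenths.Holds n`: there is a prime `p` with
`√(2 n) < p < n` for which `2 n - p` is also a prime, and the number of these primes is at least `1 / 21` of the expected
number `sing (2 n) n / (log (2 n))²` (`sing` is the singular series).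

Proof. There is a vector `w` with coordinates at most `H = X^σ` such that `q = |c · w|` is about `H max |c_i|` and such that
`c · v + e` has only a small common divisor with `q` for almost all `v`. (For the divisors up to `H` one takes the mean
value over `w`; for the larger ones some coordinate of `v` is determined modulo a large number.) The box is a union of
progressions `v_0 + t w`, on which the form runs through residue classes modulo `q`, and the theorem of the starting
files on all residue classes of all large moduli can be applied.
-/

set_option autoImplicit false

namespace Pool.Agent.Results.MP_33f996_nt.LinearFormsAndRecurrences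

open Finset
open Run7.h469.CT (Few)
open Run7.h469.Tm

theorem few_lower : Few (7 / 10) (fun n => EveryModulusSevenTenths.Holds n) :=
  fun ρ hρ A T => EveryModulusSevenTenths.result ρ hρ A T

/-- **Goldbach partitions with a prime in `(√(2 n), n)`: values of linear forms and members of linear recurrence sequences.** Let `X` be large.
(1) For every family of at most `(log X)^U` linear forms in `d ≥ 1` variables with coefficients at most `X^(7 / 3 - η)`
and with greatest common divisors at most `(log X)^U`, and for all `v` in `[1, X]^d` with at most `X^d / (log X)^A`
exceptions, all the positive values `n` of the forms at `v` satisfy `EveryModulusSevenTenths.Holds n`.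
(2) Let `s`, `t` be coprime and positive. For all `(a, b)` in `[1, X]^2` with at most `X^2 / (log X)^A` exceptions all
the positive integers `n = u x_k + v`, `x_k ≤ X^(10 / 3 - η)`, `1 ≤ u ≤ (log X)^U`, `|v| ≤ (log X)^U`, satisfy
`EveryModulusSevenTenths.Holds n`, where `x_0 = a`, `x_1 = b`, `x_(k+2) = s x_(k+1) + t x_k`. -/
theorem result (η : ℝ) (hη : 0 < η) (A U : ℕ) :
    (∀ d : ℕ, 1 ≤ d → ∃ X₀ : ℕ, ∀ X : ℕ, X₀ ≤ X → ∀ family : Finset ((Fin d → ℤ) × ℤ),
      (family.card : ℝ) ≤ Real.log X ^ U → (∀ l ∈ family, Admissible (7 / 3 - η) U X l.1 l.2) →
        ((exceptionalVectors (fun n => EveryModulusSevenTenths.Holds n) X family).card : ℝ) ≤ (X : ℝ) ^ d / Real.log X ^ A) ∧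
    (∀ s t : ℕ, 1 ≤ s → 1 ≤ t → Nat.Coprime s t → ∃ X₀ : ℕ, ∀ X : ℕ, X₀ ≤ X →
      ((exceptionalPairs s t (fun n => EveryModulusSevenTenths.Holds n) U X ((X : ℝ) ^ (10 / 3 - η))).card : ℝ) ≤
        (X : ℝ) ^ 2 / Real.log X ^ A) :=
  ⟨fun _ hd => vectors_seven_tenths hd η hη _ (few_lower) A U,
    fun s t hs ht hst => pairs_seven_tenths s t hs ht hst η hη _ (few_lower) A U⟩

end Pool.Agent.Results.MP_33f996_nt.LinearFormsAndRecurrences
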