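import Pool.Agent.Run7.h710.TR.Cnt
import Pool.Agent.R459.C2

/-!
# Goldbach partitions with a prime in `(√(2 n), n)`, in all long windows: all the multiples of all the integers near those
written by a transducer

The integers `v < a ^ k` are arbitrary, up to few exceptions; the transducer `T` reads the digits of `v` in base `a` and
writes the digits of `T(v)` in base `b` (definitions in `Pool.Agent.Run7.h710.TR.Defs`).

Method: if two words of `L` digits lead from the same state to the same state and different words are written, then the two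
parts of the exponential sum over the integers `T(v)` which belong to these words cancel in part at the places where the
frequency has a digit which is not extremal. From the starting files: the circle method for the representations in
windows (`Pool.Agent.Y885`, `Pool.Agent.W93.PG`), in a generic form: `Pool.Agent.N625.PT.t_windows`.

Definitions used (in `Pool.Agent.H560R3.GB`): `C₂`: the twin prime constant `∏_{p > 2} (1 - 1 / (p - 1) ^ 2)`; `sing m`:
the singular series `2 C₂ ∏_{p ∣ m, p > 2} (p - 1) / (p - 2)`.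

Examples: the bitwise conjunction or disjunction of `v` and `m v` (the carries are the states); the integer whose digit `i`
is `f(x_i, x_{i+1}, …, x_{i+r})`, where `x_i` are the digits of `v` and `f` is not constant (one-sided cellular automata).
-/

set_option autoImplicit false

namespace Pool.Agent.Results.MP_33f996_nt.TransducerMultiples

open Finset Pool.Agent.H560R3.GB Pool.Agent.Run7.h710.TR

open Classical in
/-- The number of the primes `p` in the window `(y₁, y₂]` with `√(2 n) < p < n` for which `2 n - p` is a prime. -/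
noncomputable def K (n y₁ y₂ : ℕ) : ℕ :=
  ((Ioc y₁ y₂).filter (fun p : ℕ => p.Prime ∧ (2 * n - p).Prime ∧ √((2 * n : ℕ) : ℝ) < p ∧ p < n)).card

/-- For all windows `(y₁, y₂] ⊆ (0, n]` of length at least `n / log ^ A n` there is a prime `p` with
`√(2 n) < p < n` and `y₁ < p ≤ y₂` for which `2 n - p` is a prime, and the number of these primes is
`sing (2 n) * (y₂ - y₁) / log ^ 2 (2 n)` up to a relative error of at most `ε`. -/
def Holds (ε : ℝ) (A n : ℕ) : Prop :=
  ∀ y₁ y₂ : ℕ, y₁ < y₂ → y₂ ≤ n → (n : ℝ) / Real.log n ^ A ≤ (y₂ : ℝ) - y₁ →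
    (∃ p : ℕ, p.Prime ∧ (2 * n - p).Prime ∧ √((2 * n : ℕ) : ℝ) < p ∧ p < n ∧ y₁ < p ∧ p ≤ y₂) ∧
    |(K n y₁ y₂ : ℝ) - sing (2 * n) * (((y₂ : ℝ) - y₁) / Real.log (2 * n : ℕ) ^ 2)| ≤
      ε * (sing (2 * n) * (((y₂ : ℝ) - y₁) / Real.log (2 * n : ℕ) ^ 2))

lemma K_le (n y₁ y₂ : ℕ) : K n y₁ y₂ ≤ Pool.Agent.W93.PG.cnt (2 * n) y₁ y₂ := by
  classical
  unfold K Pool.Agent.W93.PG.cnt
  apply card_le_card
  intro p hp
  rw [mem_filter] at hp ⊢
  exact ⟨hp.1, hp.2.1, hp.2.2.1⟩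

lemma K_ge (n y₁ y₂ : ℕ) (hy : y₂ ≤ n) :
    (Pool.Agent.W93.PG.cnt (2 * n) y₁ y₂ : ℝ) ≤ K n y₁ y₂ + (√((2 * n : ℕ) : ℝ) + 3) := by
  classical
  have h1 : (Ioc y₁ y₂).filter (fun p => p.Prime ∧ (2 * n - p).Prime) ⊆
      (Ioc y₁ y₂).filter (fun p : ℕ => p.Prime ∧ (2 * n - p).Prime ∧ √((2 * n : ℕ) : ℝ) < p ∧ p < n) ∪
      (range (⌊√((2 * n : ℕ) : ℝ)⌋₊ + 1) ∪ {n}) := by
    intro p hp
    rw [mem_filter, mem_Ioc] at hp
    rw [mem_union, mem_filter, mem_Ioc, mem_union, mem_range, mem_singleton]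
    obtain ⟨⟨a1, a2⟩, a3, a4⟩ := hp
    by_cases h2 : √((2 * n : ℕ) : ℝ) < p
    · rcases lt_or_eq_of_le (a2.trans hy) with h5 | h5
      · exact Or.inl ⟨⟨a1, a2⟩, a3, a4, h2, h5⟩
      · exact Or.inr (Or.inr h5)
    · right
      left
      rw [Nat.lt_succ_iff]
      exact Nat.le_floor (not_lt.1 h2)
  have h3 := (card_le_card h1).trans (card_union_le _ _)
  have h6 := card_union_le (range (⌊√((2 * n : ℕ) : ℝ)⌋₊ + 1)) {n}
  rw [card_range, card_singleton] at h6
  have h7 : ((Ioc y₁ y₂).filter (fun p => p.Prime ∧ (2 * n - p).Prime)).card ≤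
      ((Ioc y₁ y₂).filter (fun p : ℕ => p.Prime ∧ (2 * n - p).Prime ∧ √((2 * n : ℕ) : ℝ) < p ∧ p < n)).card +
      (⌊√((2 * n : ℕ) : ℝ)⌋₊ + 1 + 1) := by omega
  have h4 : (Pool.Agent.W93.PG.cnt (2 * n) y₁ y₂ : ℝ) ≤ K n y₁ y₂ + ((⌊√((2 * n : ℕ) : ℝ)⌋₊ : ℝ) + 1 + 1) := by
    unfold Pool.Agent.W93.PG.cnt K
    exact_mod_cast h7
  have h5 := Nat.floor_le (Real.sqrt_nonneg ((2 * n : ℕ) : ℝ))
  linarith

lemma holds_of (A : ℕ) (ε : ℝ) (hε : 0 < ε) : ∃ m₀ : ℕ, ∀ n : ℕ, m₀ ≤ 2 * n →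
    Pool.Agent.W93.PG.WinP (min ε (1 / 2) / 2) (A + 1) (2 * n) → Holds ε A n := by
  obtain ⟨ε', hε'⟩ : ∃ ε', ε' = min ε (1 / 2) := ⟨_, rfl⟩
  have he0 : 0 < ε' := by rw [hε']; exact lt_min hε (by norm_num)
  have he1 : ε' ≤ ε := by rw [hε']; exact min_le_left _ _
  have he2 : ε' ≤ 1 / 2 := by rw [hε']; exact min_le_right _ _
  obtain ⟨n1, h1⟩ := Pool.Agent.H373R2.T7.ev_L' 3
  obtain ⟨n2, h2⟩ := Pool.Agent.H373R2.T7.ev_log' (A + 2) (20 / ε')
  rw [← hε']
  refine ⟨n1 + n2 + 6, fun n hn hw => ?_⟩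
  have hL := h1 (2 * n) (by omega)
  have hc := h2 (2 * n) (by omega)
  intro y₁ y₂ hy hyn hl
  have hn3 : (3 : ℝ) ≤ n := by exact_mod_cast (by omega : 3 ≤ n)
  obtain ⟨L, hLd⟩ : ∃ L, L = Real.log ((2 * n : ℕ) : ℝ) := ⟨_, rfl⟩
  obtain ⟨R, hR⟩ : ∃ R, R = √((2 * n : ℕ) : ℝ) := ⟨_, rfl⟩
  have hR2 : R * R = 2 * n := by
    rw [hR, Real.mul_self_sqrt (Nat.cast_nonneg _)]
    push_cast
    ring
  have hR1 : 1 ≤ R := by
    rw [hR]
    apply Real.one_le_sqrt.2
    push_cast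
    linarith
  rw [← hLd] at hL hc
  rw [← hR] at hc
  have hlog0 : 1 ≤ Real.log (n : ℝ) := by
    rw [Real.le_log_iff_exp_le (by linarith)]
    linarith [Real.exp_one_lt_d9]
  have hlogL : Real.log (n : ℝ) ≤ L := by
    rw [hLd]
    exact Real.log_le_log (by linarith) (by exact_mod_cast (by omega : n ≤ 2 * n))
  have hyr : (y₁ : ℝ) < y₂ := by exact_mod_cast hy
  obtain ⟨D, hD⟩ : ∃ D : ℝ, D = (y₂ : ℝ) - y₁ := ⟨_, rfl⟩
  have hD1 : n / L ^ A ≤ D := by
    rw [hD]
    refine le_trans ?_ hl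
    apply div_le_div_of_nonneg_left (by linarith) (by positivity)
    exact pow_le_pow_left₀ (by linarith) hlogL _
  have hwin := hw y₁ y₂ hy (by omega) (by
    rw [← hLd, ← hD]
    refine le_trans ?_ hD1
    have e : ((2 * n : ℕ) : ℝ) = 2 * n := by push_cast; ring
    rw [e, pow_succ, div_le_div_iff₀ (by positivity) (by positivity)]
    have : 0 ≤ (n : ℝ) * L ^ A := by positivity
    nlinarith)
  rw [← hLd, ← hD] at hwin
  obtain ⟨M, hM⟩ : ∃ M : ℝ, M = sing (2 * n) * (D / L ^ 2) := ⟨_, rfl⟩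
  have e1 : sing (2 * n) * D / L ^ 2 = M := by rw [hM]; ring
  rw [e1] at hwin
  rw [← hLd, ← hD, ← hM]
  have hs := Pool.Agent.R459.sing_num (2 * n)
  have hD0 : 0 < D := by rw [hD]; linarith
  have hQ0 : 0 < D / L ^ 2 := by positivity
  have hM1 : 327 / 250 * (D / L ^ 2) ≤ M := by
    rw [hM]
    exact mul_le_mul_of_nonneg_right hs hQ0.le
  have hbig : R + 3 ≤ ε' / 2 * M := by
    have h3 : n / L ^ (A + 2) ≤ D / L ^ 2 := by
      rw [pow_add, ← div_div]
      exact div_le_div_of_nonneg_right hD1 (by positivity)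
    have h4 : 20 / ε' * L ^ (A + 2) ≤ R := hc
    have h5 : 10 * R ≤ ε' * (n / L ^ (A + 2)) := by
      rw [mul_div_assoc', le_div_iff₀ (by positivity)]
      have h6 : 20 * L ^ (A + 2) ≤ ε' * R := by
        have h7 : ε' * (20 / ε' * L ^ (A + 2)) ≤ ε' * R := mul_le_mul_of_nonneg_left h4 he0.le
        have h8 : ε' * (20 / ε' * L ^ (A + 2)) = 20 * L ^ (A + 2) := by field_simp
        rw [← h8]
        exact h7
      have h9 : R * (20 * L ^ (A + 2)) ≤ R * (ε' * R) := mul_le_mul_of_nonneg_left h6 (by linarith)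
      have h10 : R * (ε' * R) = ε' * (2 * n) := by rw [← hR2]; ring
      nlinarith
    have h11 : ε' * (n / L ^ (A + 2)) ≤ ε' * (D / L ^ 2) := mul_le_mul_of_nonneg_left h3 he0.le
    have h12 : ε' * (327 / 250 * (D / L ^ 2)) ≤ ε' * M := mul_le_mul_of_nonneg_left hM1 he0.le
    nlinarith
  have hK1 : (K n y₁ y₂ : ℝ) ≤ Pool.Agent.W93.PG.cnt (2 * n) y₁ y₂ := by exact_mod_cast K_le n y₁ y₂
  have hK2 := K_ge n y₁ y₂ hyn
  rw [← hR] at hK2
  have hM0 : 0 < M := by linarith [mul_pos (by norm_num : (0 : ℝ) < 327 / 250) hQ0]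
  have hfin : |(K n y₁ y₂ : ℝ) - M| ≤ ε' * M := by
    rw [abs_le] at hwin ⊢
    constructor <;> linarith [hwin.1, hwin.2]
  refine ⟨?_, hfin.trans (mul_le_mul_of_nonneg_right he1 hM0.le)⟩
  have hpos : 0 < K n y₁ y₂ := by
    have h3 := (abs_le.1 hfin).1
    have h4 : (0 : ℝ) < K n y₁ y₂ := by nlinarith
    exact_mod_cast h4
  classical
  unfold K at hpos
  obtain ⟨p, hp⟩ := card_pos.1 hpos
  rw [mem_filter, mem_Ioc] at hp
  exact ⟨p, hp.2.1, hp.2.2.1, hp.2.2.2.1, hp.2.2.2.2, hp.1.1, hp.1.2⟩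

open Classical in
/-- Let `a`, `b ≥ 2`, `L ≥ 1`, `κ ≠ 0`, `B`, `J`, `W`, `A`, `U` and `ε > 0` be fixed and let `k` be large. Let an arbitrary transducer be given which reads digits `< a` and writes digits `< b` (with finitely or infinitely many
states) such that from every state two words of `L` digits lead to the same state, while different words are written; let it
begin in an arbitrary state `s` and read from the left or from the right,
and let `c` be an arbitrary integer with `|c| ≤ B b ^ k` (`k` must be large in terms of the fixed numbers only). Then all the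
`v < a ^ k`, with at most `a ^ k / k ^ U` exceptions, have the following property, where `v'` is the integer which is written
when `v` is read: for ALL the integers `q ≥ 1` at a distance of at most `k ^ W` from `c + κ v'` and ALL the factors
`1 ≤ h ≤ k ^ J` for which `m = h q` is even, in every
window `(y₁, y₂] ⊆ (0, n]`, `n = m / 2`, of a length of at least `n / log ^ A n` there is a prime `p` with `√(2 n) < p < n` for
which `2 n - p` is a prime, and the number of these primes is as predicted, up to a relative error of at most `ε`. -/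
theorem result (a b L : ℕ) (hb : 2 ≤ b) (hL : 1 ≤ L) (κ : ℤ) (hκ : κ ≠ 0) (B J W A U : ℕ) (ε : ℝ) (hε : 0 < ε) :
    ∃ k₀ : ℕ, ∀ k : ℕ, k₀ ≤ k → ∀ (S : Type) (δ : S → ℕ → S) (o : S → ℕ → ℕ), Transducer a b L δ o →
      ∀ (left : Bool) (s : S) (c : ℤ), |c| ≤ B * (b : ℤ) ^ k →
      (((range (a ^ k)).filter fun v => ¬ ∀ q : ℕ, 1 ≤ q → |(q : ℤ) - (c + κ * (image a b δ o left k s v : ℕ))| ≤ (k : ℤ) ^ W →
        ∀ h : ℕ, 1 ≤ h → h ≤ k ^ J → Even (h * q) → Holds ε A (h * q / 2)).card : ℝ) ≤ (a : ℝ) ^ k / (k : ℝ) ^ U := by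
  obtain ⟨m₀, hm⟩ := holds_of A ε hε
  have hm' : ∀ m : ℕ, m₀ ≤ m → 2 ∣ m → Pool.Agent.W93.PG.WinP (min ε (1 / 2) / 2) (A + 1) m → (fun m => Holds ε A (m / 2)) m := by
    intro m hm1 h2 hwin
    have e : 2 * (m / 2) = m := Nat.mul_div_cancel' h2
    exact hm (m / 2) (by omega) (by rw [e]; exact hwin)
  obtain ⟨k₀, hmain⟩ := Pool.Agent.N625.PT.t_windows (tr_tcls a b L hb hL κ hκ) B J W (A + 1) U m₀
    (min ε (1 / 2) / 2) (div_pos (lt_min hε (by norm_num)) (by norm_num))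
    (fun m => Holds ε A (m / 2)) hm'
  refine ⟨k₀, fun k hk S δ o hT left s c hc => ?_⟩
  refine exceptions hb hT left k s (fun v => ∀ q : ℕ, 1 ≤ q → |(q : ℤ) - (c + κ * (v : ℕ))| ≤ (k : ℤ) ^ W →
    ∀ h : ℕ, 1 ≤ h → h ≤ k ^ J → Even (h * q) → Holds ε A (h * q / 2)) U ?_
  refine hmain k hk _ ⟨S, δ, o, left, s, hT, rfl⟩ c hc (fun v => ∀ q : ℕ, 1 ≤ q → |(q : ℤ) - (c + κ * (v : ℕ))| ≤ (k : ℤ) ^ W →
    ∀ h : ℕ, 1 ≤ h → h ≤ k ^ J → Even (h * q) → Holds ε A (h * q / 2)) ?_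
  intro v hv
  push Not at hv
  obtain ⟨q, hq1, hq2, h, hh1, hh2, hev, hbad⟩ := hv
  refine ⟨h, hh1, hh2, (q : ℤ) - (c + κ * v), hq2, ?_⟩
  have e : (h : ℤ) * (c + ((q : ℤ) - (c + κ * v)) + κ * v) = ((h * q : ℕ) : ℤ) := by
    push_cast
    ring
  rw [e]
  refine ⟨by exact_mod_cast Nat.mul_pos hh1 hq1, by exact_mod_cast hev.two_dvd, ?_⟩
  rw [Int.toNat_natCast]
  exact hbad

end Pool.Agent.Results.MP_33f996_nt.TransducerMultiples
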